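import Pool.Agent.Q107.Sun.Main

set_option autoImplicit false

/-!
# Graphs whose blocks are chordless suns are Archimedean

Every finite graph each of whose blocks is isomorphic to a chordless sun `S_{k,k}` (for some `k ≥ 3`
which may depend on the block) is a `φ`-tolerance graph for every symmetric positive Archimedean
function `φ`; if the graph is connected then each of its vertices is an umbrella vertex.

Outline. A family of representations of an induced subgraph inside a strip `[p, q]`, for all large
values `s` of the tolerances of some vertices, with cliques `L` and `R` of intervals which begin at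
`p` and end at `q`, can be extended in two ways: two families with a common vertex in `R` of the first
and in `L` of the second are concatenated at this vertex; and a clique of new vertices adjacent
exactly to `L ∪ R` can be added with intervals that contain the whole strip, since the intervals of
`L` and `R` can be made as long as needed and the tolerances of the new vertices are so large that no
other vertex is adjacent. For a graph with a block that is a sun with the cycle `w_0, …, w_(k-1)` and
the tips `z_0, …, z_(k-1)` one places, from left to right, the part attached to the tip `z_0` together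
with `w_1`, the part attached to `w_1`, the part attached to `z_1` together with `w_1` and `w_2`, the
part attached to `w_2`, …, the part attached to `z_(k-1)` together with `w_(k-1)`, and adds `w_0`; for
`z_0` as umbrella vertex the first part is omitted and `z_0` is added after `w_0`. By induction on the
number of vertices every vertex of a connected graph of the class is an umbrella vertex.
-/

namespace Pool.Agent.Results.MP_2a9c9f_co.ChordlessSuns

open Filter MeasureTheory

/-- The length of the intersection of the closed intervals `[a, b]` and `[c, d]`. -/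
noncomputable def overlap (a b c d : ℝ) : ℝ := (volume (Set.Icc a b ∩ Set.Icc c d)).toReal

/-- `φ`, restricted to pairs of positive numbers, is symmetric, positive and Archimedean: the class
`Φ`. -/
structure IsArchFun (φ : ℝ → ℝ → ℝ) : Prop where
  symm : ∀ x y, 0 < x → 0 < y → φ x y = φ y x
  pos : ∀ x y, 0 < x → 0 < y → 0 < φ x y
  left : ∀ c, 0 < c → Tendsto (fun x => φ x c) atTop atTop
  right : ∀ c, 0 < c → Tendsto (fun x => φ c x) atTop atTop

variable {V : Type}

/-- The intervals `[a v, b v]` and the tolerances `t v > 0` form a `φ`-tolerance representation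
of `G`. -/
structure IsRep (φ : ℝ → ℝ → ℝ) (G : SimpleGraph V) (a b t : V → ℝ) : Prop where
  le : ∀ v, a v ≤ b v
  pos : ∀ v, 0 < t v
  adj : ∀ u v, u ≠ v → (G.Adj u v ↔ φ (t u) (t v) ≤ overlap (a u) (b u) (a v) (b v))

/-- `G` is a `φ`-tolerance graph for every `φ ∈ Φ`. -/
def IsArchimedean (G : SimpleGraph V) : Prop :=
  ∀ φ, IsArchFun φ → ∃ a b t : V → ℝ, IsRep φ G a b t

/-- `v` is an umbrella vertex: for every `φ ∈ Φ` there is `s > 0` such that for every `s' ≥ s` there
is a `φ`-tolerance representation in which the interval of `v` contains every other interval and the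
tolerance of `v` is `s'`. -/
def IsUmbrella (G : SimpleGraph V) (v : V) : Prop :=
  ∀ φ, IsArchFun φ → ∃ s : ℝ, 0 < s ∧ ∀ s', s ≤ s' → ∃ a b t : V → ℝ, IsRep φ G a b t ∧
    (∀ u, Set.Icc (a u) (b u) ⊆ Set.Icc (a v) (b v)) ∧ t v = s'

/-- The subgraph induced by `B` is connected and has no cut vertex. -/
def NoCutVertex (G : SimpleGraph V) (B : Set V) : Prop :=
  (G.induce B).Connected ∧ ∀ x ∈ B, (G.induce (B \ {x})).Preconnected

/-- `B` is (the vertex set of) a block: a maximal induced connected subgraph without cut vertex. -/
def IsBlock (G : SimpleGraph V) (B : Set V) : Prop :=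
  NoCutVertex G B ∧ ∀ B', B ⊆ B' → NoCutVertex G B' → B' = B

/-- The chordless sun `S_{k,k}`: the cycle of the vertices `v_i = inl i`, and independent vertices
`u_i = inr i`, where `u_i` is adjacent exactly to `v_i` and `v_(i+1)` (indices modulo `k`). -/
def chordlessSun (k : ℕ) : SimpleGraph (ZMod k ⊕ ZMod k) where
  Adj x y := match x, y with
    | Sum.inl i, Sum.inl j => i ≠ j ∧ (j = i + 1 ∨ i = j + 1)
    | Sum.inl i, Sum.inr j => i = j ∨ i = j + 1
    | Sum.inr i, Sum.inl j => j = i ∨ j = i + 1
    | Sum.inr _, Sum.inr _ => False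
  symm := ⟨by
    rintro (i | i) (j | j) h
    · exact ⟨h.1.symm, h.2.symm⟩
    · exact h
    · exact h
    · exact h⟩
  loopless := ⟨by
    rintro (i | i) h
    · exact h.1 rfl
    · exact h⟩

/-- Every block of `G` is isomorphic to a chordless sun. -/
def BlocksAreSuns (G : SimpleGraph V) : Prop :=
  ∀ B : Set V, IsBlock G B → ∃ k, 3 ≤ k ∧ Nonempty (G.induce B ≃g chordlessSun k)

open Pool.Agent.Q107.Sun

lemma overlap_eq (a b c d : ℝ) : overlap a b c d = ilen a b c d := by
  unfold overlap ilen
  rw [Set.Icc_inter_Icc, Real.volume_Icc, ENNReal.toReal_ofReal', max_comm]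

lemma noCut_iff (G : SimpleGraph V) (B : Set V) : NoCutVertex G B ↔ NoCut G B := by
  unfold NoCutVertex NoCut
  rw [SimpleGraph.connected_iff, preconn_iff, Set.nonempty_coe_sort]
  constructor
  · rintro ⟨⟨h1, h2⟩, h3⟩
    exact ⟨h2, h1, fun z hz => (preconn_iff _).1 (h3 z hz)⟩
  · rintro ⟨h2, h1, h3⟩
    exact ⟨⟨h1, h2⟩, fun z hz => (preconn_iff _).2 (h3 z hz)⟩

lemma block_iff (G : SimpleGraph V) (B : Set V) : IsBlock G B ↔ BlockIn G Set.univ B := by
  unfold IsBlock BlockIn
  rw [noCut_iff]
  constructor
  · rintro ⟨h1, h2⟩
    exact ⟨Set.subset_univ _, h1, fun B' _ h h' => h2 B' h ((noCut_iff G B').2 h')⟩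
  · rintro ⟨_, h1, h2⟩
    exact ⟨h1, fun B' h h' => h2 B' (Set.subset_univ _) h ((noCut_iff G B').1 h')⟩

lemma arch {φ : ℝ → ℝ → ℝ} (h : IsArchFun φ) : ArchFun φ := ⟨h.symm, h.pos, h.left, h.right⟩

lemma rep_of_strip {φ : ℝ → ℝ → ℝ} {G : SimpleGraph V} {C L R : Set V} {s : ℝ} {a b t : V → ℝ}
    {p q : ℝ} (h : Strip G φ Set.univ C L R s a b t p q) : IsRep φ G a b t :=
  ⟨fun v => (h.hull v trivial).2.1, fun v => h.tpos v trivial, fun u v huv => by
    rw [overlap_eq]
    exact h.adj u trivial v trivial huv⟩

/-- **Every graph each of whose blocks is a chordless sun is Archimedean**, and in such a connected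
graph every vertex is an umbrella vertex. -/
theorem result {V : Type} [Finite V] (G : SimpleGraph V) (hG : BlocksAreSuns G) :
    IsArchimedean G ∧ (G.Connected → ∀ v, IsUmbrella G v) := by
  have hA : ∀ A, BlockIn G Set.univ A → (∃ x ∈ A, ∃ y ∈ A, x ≠ y) → SunSet G A :=
    fun A h _ => hG A ((block_iff G A).2 h)
  constructor
  · intro φ hφ
    obtain ⟨s0, _, h⟩ := (all_of_closed (arch hφ) hA _ Set.univ le_rfl
      (fun _ _ _ _ => trivial)).ex
    obtain ⟨a, b, t, p, q, h1⟩ := h s0 le_rfl
    exact ⟨a, b, t, rep_of_strip h1⟩
  · intro hc v φ hφ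
    have hconn : Conn G Set.univ := by
      rintro x - y -
      have h1 := hc.preconnected x y
      rw [SimpleGraph.reachable_iff_reflTransGen] at h1
      induction h1 with
      | refl => exact Rch.refl _ _
      | tail _ h ih => exact ih.trans (rch_step h trivial trivial)
    obtain ⟨s0, hs0, h⟩ := (main (arch hφ) _ Set.univ le_rfl hconn hA v trivial).ex
    refine ⟨s0, hs0, fun s hs => ?_⟩
    obtain ⟨a, b, t, p, q, h1⟩ := h s hs
    refine ⟨a, b, t, rep_of_strip h1, fun u => ?_, h1.hC v rfl⟩
    have h2 := h1.hull u trivial
    rw [h1.hL v rfl, h1.hR v rfl]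
    exact Set.Icc_subset_Icc h2.1 h2.2.2

end Pool.Agent.Results.MP_2a9c9f_co.ChordlessSuns
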